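import Pool.Agent.P.MP_d3fb3e_lc.Stage

/-! Every pattern of collapses and separations between consecutive levels of the W-hierarchy is
realised relative to some oracle. -/

namespace Pool.Agent.Results.MP_d3fb3e_lc.OraclePatterns

open Pool.Agent.P.MP_d3fb3e_lc

theorem result (S : Set ℕ) :
    ∃ A : List Bool → Bool, ∀ t, 1 ≤ t → (W A t = W A (t + 1) ↔ t ∈ S) := oracle S

end Pool.Agent.Results.MP_d3fb3e_lc.OraclePatterns
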